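import Mathlib
import Pool.Agent.MP_8013b9_lc.Defs
import Pool.Agent.MP_8013b9_lc.Proof

namespace Pool.Agent.Results.MP_8013b9_lc.NotIStar

open Pool.Agent.MP_8013b9_lc

theorem result :
    ∃ H : AddSubgroup UnitAddCircle, ∀ I : Set (Set ℕ), IsIdealOnNat I →
      ∀ a : ℕ → ℤ, (H : Set UnitAddCircle) ≠ HStar a I := by
  obtain ⟨H, hH⟩ := main
  exact ⟨H, fun I hI a => hH I hI.2.1 a⟩

end Pool.Agent.Results.MP_8013b9_lc.NotIStar
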